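import Pool.Agent.Y472.K.Defs

/-! # The rate of a pair near the maximum (project TK, helper472) -/

set_option autoImplicit false

namespace Pool.Agent.Y721.TK

open MeasureTheory Pool.Agent.Y472.K
open scoped Real

/-! ### The function `lf` -/

theorem normSq_val (x y φ : ℝ) :
    Complex.normSq (2 * Complex.cos (x + y * Complex.I) - 2 * (Real.cos φ : ℂ)) =
      4 * ((Real.cosh y - Real.cos φ) ^ 2 - Real.sin x ^ 2 +
        2 * (1 - Real.cos x) * Real.cosh y * Real.cos φ) := by
  rw [Complex.cos_add_mul_I, ← Complex.ofReal_cos, ← Complex.ofReal_cosh, ← Complex.ofReal_sin,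
    ← Complex.ofReal_sinh, Complex.normSq_apply]
  have g1 : ∀ p q r s t : ℝ, (2 * ((p : ℂ) * (q : ℂ) - (r : ℂ) * (s : ℂ) * Complex.I) -
      2 * (t : ℂ)).re = 2 * (p * q) - 2 * t := by
    intro p q r s t
    simp
  have g2 : ∀ p q r s t : ℝ, (2 * ((p : ℂ) * (q : ℂ) - (r : ℂ) * (s : ℂ) * Complex.I) -
      2 * (t : ℂ)).im = -(2 * (r * s)) := by
    intro p q r s t
    simp
  have e1 := g1 (Real.cos x) (Real.cosh y) (Real.sin x) (Real.sinh y) (Real.cos φ)
  have e2 := g2 (Real.cos x) (Real.cosh y) (Real.sin x) (Real.sinh y) (Real.cos φ)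
  rw [e1, e2]
  have h1 := Real.cosh_sq y
  have h2 := Real.sin_sq_add_cos_sq x
  have h3 : Real.sinh y ^ 2 = Real.cosh y ^ 2 - 1 := by linarith
  have h4 : Real.cos x ^ 2 = 1 - Real.sin x ^ 2 := by linarith
  have e3 : (2 * (Real.cos x * Real.cosh y) - 2 * Real.cos φ) *
      (2 * (Real.cos x * Real.cosh y) - 2 * Real.cos φ) +
      -(2 * (Real.sin x * Real.sinh y)) * -(2 * (Real.sin x * Real.sinh y)) =
      4 * (Real.cos x ^ 2 * Real.cosh y ^ 2 - 2 * Real.cos x * Real.cosh y * Real.cos φ +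
        Real.cos φ ^ 2 + Real.sin x ^ 2 * Real.sinh y ^ 2) := by ring
  rw [e3, h3, h4]
  ring

theorem norm_pos' {x y φ : ℝ} (hy : y ≠ 0) :
    0 < ‖2 * Complex.cos (x + y * Complex.I) - 2 * (Real.cos φ : ℂ)‖ := by
  rw [norm_pos_iff]
  intro h
  have h1 := normSq_val x y φ
  rw [h, map_zero] at h1
  have hs : 0 < Real.sinh y ^ 2 := by
    have : Real.sinh y ≠ 0 := by rwa [Ne, Real.sinh_eq_zero]
    positivity
  have h2 := Real.cosh_sq y
  have h3 := Real.sin_sq_add_cos_sq x
  have e : (Real.cosh y - Real.cos φ) ^ 2 - Real.sin x ^ 2 +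
        2 * (1 - Real.cos x) * Real.cosh y * Real.cos φ =
      (Real.cos x * Real.cosh y - Real.cos φ) ^ 2 + Real.sin x ^ 2 * Real.sinh y ^ 2 := by
    have h4 : Real.sinh y ^ 2 = Real.cosh y ^ 2 - 1 := by linarith
    have h5 : Real.sin x ^ 2 = 1 - Real.cos x ^ 2 := by linarith
    rw [h4, h5]
    ring
  rw [e] at h1
  have h6 : 0 ≤ (Real.cos x * Real.cosh y - Real.cos φ) ^ 2 := sq_nonneg _
  have h7 : 0 ≤ Real.sin x ^ 2 * Real.sinh y ^ 2 := by positivity
  have h8 : Real.sin x ^ 2 * Real.sinh y ^ 2 = 0 := by linarith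
  have h9 : (Real.cos x * Real.cosh y - Real.cos φ) ^ 2 = 0 := by linarith
  have h10 : Real.sin x ^ 2 = 0 := (mul_eq_zero.mp h8).resolve_right hs.ne'
  have h11 : Real.cos x ^ 2 = 1 := by linarith
  have h12 : Real.cos x * Real.cosh y = Real.cos φ := by
    have := pow_eq_zero_iff (n := 2) (by norm_num) |>.mp h9
    linarith
  have h13 : Real.cos φ ^ 2 = Real.cosh y ^ 2 := by rw [← h12, mul_pow, h11, one_mul]
  have h14 := Real.sin_sq_add_cos_sq φ
  have h15 : 0 ≤ Real.sin φ ^ 2 := sq_nonneg _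
  linarith

theorem lf_continuous (x : ℝ) {y : ℝ} (hy : y ≠ 0) : Continuous (lf x y) := by
  unfold lf
  refine Continuous.log ?_ fun t => (norm_pos' hy).ne'
  refine Continuous.norm ?_
  exact continuous_const.sub (continuous_const.mul
    (Complex.continuous_ofReal.comp (Real.continuous_cos.comp (continuous_const.mul continuous_id))))

/-- the value at `x = 0` -/
theorem lf_zero {y : ℝ} (hy : y ≠ 0) (t : ℝ) :
    lf 0 y t = Real.log (2 * Real.cosh y - 2 * Real.cos (2 * π * t)) := by
  unfold lf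
  congr 1
  have h1 := normSq_val 0 y (2 * π * t)
  rw [Real.cos_zero, Real.sin_zero] at h1
  rw [Complex.normSq_eq_norm_sq] at h1
  have h2 : 1 < Real.cosh y := Real.one_lt_cosh.mpr hy
  have h3 := Real.cos_le_one (2 * π * t)
  have h4 : ‖2 * Complex.cos ((0 : ℝ) + y * Complex.I) - 2 * (Real.cos (2 * π * t) : ℂ)‖ ^ 2 =
      (2 * Real.cosh y - 2 * Real.cos (2 * π * t)) ^ 2 := by
    rw [h1]; ring
  exact (pow_left_inj₀ (norm_nonneg _) (by linarith) two_ne_zero).mp h4

/-- the decrease in `x` -/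
theorem lf_le {x y t : ℝ} (hy : y ≠ 0) (hx : |x| ≤ π / 2) (ht : Real.cos (2 * π * t) ≤ 0) :
    lf x y t ≤ lf 0 y t - 2 / (π * (Real.cosh y + 1)) ^ 2 * x ^ 2 := by
  have hC : 1 < Real.cosh y := Real.one_lt_cosh.mpr hy
  have hp : 0 < ‖2 * Complex.cos (x + y * Complex.I) - 2 * (Real.cos (2 * π * t) : ℂ)‖ :=
    norm_pos' hy
  have h1 := normSq_val x y (2 * π * t)
  rw [Complex.normSq_eq_norm_sq] at h1
  set c := Real.cos (2 * π * t) with hc
  set C := Real.cosh y with hCd
  have hc1 : -1 ≤ c := Real.neg_one_le_cos _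
  have hD : 0 < C - c := by linarith
  have hcx : Real.cos x ≤ 1 := Real.cos_le_one x
  -- Jordan's inequality
  have hsin : (2 / π * x) ^ 2 ≤ Real.sin x ^ 2 := by
    have h2 : 2 / π * |x| ≤ Real.sin |x| := Real.mul_le_sin (abs_nonneg x) hx
    have h3 : 0 ≤ 2 / π * |x| := by positivity
    have h4 : (2 / π * |x|) ^ 2 ≤ Real.sin |x| ^ 2 := pow_le_pow_left₀ h3 h2 2
    have h5 : Real.sin |x| ^ 2 = Real.sin x ^ 2 := by
      rcases abs_cases x with ⟨h, -⟩ | ⟨h, -⟩
      · rw [h]
      · rw [h, Real.sin_neg, neg_sq]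
    rw [h5, mul_pow, sq_abs, ← mul_pow] at h4
    exact h4
  have h2 : ‖2 * Complex.cos (x + y * Complex.I) - 2 * (c : ℂ)‖ ^ 2 ≤
      (2 * C - 2 * c) ^ 2 * (1 - (2 / π * x) ^ 2 / (C + 1) ^ 2) := by
    rw [h1]
    have h3 : 2 * (1 - Real.cos x) * C * c ≤ 0 := by
      have : 0 ≤ 2 * (1 - Real.cos x) * C := by
        apply mul_nonneg _ (by linarith)
        linarith
      exact mul_nonpos_of_nonneg_of_nonpos this ht
    have h4 : (C - c) ^ 2 * ((2 / π * x) ^ 2 / (C + 1) ^ 2) ≤ (2 / π * x) ^ 2 := by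
      rw [mul_div_assoc', div_le_iff₀ (by positivity), mul_comm]
      apply mul_le_mul_of_nonneg_left _ (sq_nonneg _)
      exact pow_le_pow_left₀ hD.le (by linarith) 2
    nlinarith
  have hlog : 2 * lf x y t ≤ 2 * lf 0 y t + -((2 / π * x) ^ 2 / (C + 1) ^ 2) := by
    have h3 : 2 * lf x y t =
        Real.log (‖2 * Complex.cos (x + y * Complex.I) - 2 * (c : ℂ)‖ ^ 2) := by
      rw [Real.log_pow, Nat.cast_ofNat]
      rfl
    have h4 : 2 * lf 0 y t = Real.log ((2 * C - 2 * c) ^ 2) := by
      rw [Real.log_pow, lf_zero hy, Nat.cast_ofNat]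
    rw [h3, h4]
    have hpos : 0 < (2 * C - 2 * c) ^ 2 * (1 - (2 / π * x) ^ 2 / (C + 1) ^ 2) :=
      lt_of_lt_of_le (by positivity) h2
    have hpos2 : 0 < (2 * C - 2 * c) ^ 2 := by
      have : 0 < 2 * C - 2 * c := by linarith
      positivity
    have hpos3 : 0 < 1 - (2 / π * x) ^ 2 / (C + 1) ^ 2 := by
      by_contra hcon
      push Not at hcon
      have := mul_nonpos_of_nonneg_of_nonpos hpos2.le hcon
      linarith
    refine (Real.log_le_log (by positivity) h2).trans ?_
    rw [Real.log_mul hpos2.ne' hpos3.ne']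
    have h5 := Real.log_le_sub_one_of_pos hpos3
    linarith
  have e : 2 / (π * (C + 1)) ^ 2 * x ^ 2 = 1 / 2 * ((2 / π * x) ^ 2 / (C + 1) ^ 2) := by
    rw [mul_pow, mul_pow, div_pow]
    field_simp
  rw [e]
  linarith

/-! ### The dependence on the end points -/

/-- the function in the integral at `x = 0` -/
noncomputable def gg (C t : ℝ) : ℝ := Real.log (2 * C - 2 * Real.cos (2 * π * t))

theorem gg_continuous {C : ℝ} (hC : 1 < C) : Continuous (gg C) := by
  unfold gg
  refine Continuous.log ?_ fun t => ?_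
  · fun_prop
  · have := Real.cos_le_one (2 * π * t)
    have : 0 < 2 * C - 2 * Real.cos (2 * π * t) := by linarith
    exact this.ne'

theorem gg_mono {C : ℝ} (hC : 1 < C) {s t : ℝ} (hs : 1 / 4 ≤ s) (hst : s ≤ t) (ht : t ≤ 3 / 8) :
    2 / (C + 1) * (t - s) ≤ gg C t - gg C s := by
  have hcs := Real.cos_le_one (2 * π * s)
  have hct := Real.cos_le_one (2 * π * t)
  have hct' := Real.neg_one_le_cos (2 * π * t)
  have h1 : 0 < 2 * C - 2 * Real.cos (2 * π * s) := by linarith
  have h2 : 0 < 2 * C - 2 * Real.cos (2 * π * t) := by linarith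
  have h3 : gg C t - gg C s = -Real.log ((2 * C - 2 * Real.cos (2 * π * s)) /
      (2 * C - 2 * Real.cos (2 * π * t))) := by
    unfold gg
    rw [Real.log_div h1.ne' h2.ne']
    ring
  have h4 := Real.log_le_sub_one_of_pos (div_pos h1 h2)
  have h5 : 1 - (2 * C - 2 * Real.cos (2 * π * s)) / (2 * C - 2 * Real.cos (2 * π * t)) =
      (Real.cos (2 * π * s) - Real.cos (2 * π * t)) / (C - Real.cos (2 * π * t)) := by
    have : C - Real.cos (2 * π * t) ≠ 0 := by linarith
    have h2' := h2.ne'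
    rw [eq_div_iff this, sub_mul, one_mul, div_mul_eq_mul_div, sub_eq_iff_eq_add,
      ← sub_eq_iff_eq_add', eq_comm, div_eq_iff h2']
    ring
  have hcos : 2 * (t - s) ≤ Real.cos (2 * π * s) - Real.cos (2 * π * t) := by
    rw [Real.cos_sub_cos]
    have hpi := Real.pi_pos
    have e1 : (2 * π * s - 2 * π * t) / 2 = -(π * (t - s)) := by ring
    have e2 : (2 * π * s + 2 * π * t) / 2 = π * (s + t) := by ring
    rw [e1, e2, Real.sin_neg]
    have h6 : 2 * (t - s) ≤ Real.sin (π * (t - s)) := by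
      have h7 := Real.mul_le_sin (x := π * (t - s)) (by
        apply mul_nonneg hpi.le; linarith) (by
        nlinarith)
      have e3 : 2 / π * (π * (t - s)) = 2 * (t - s) := by
        field_simp
      rw [e3] at h7
      exact h7
    have h7 : 1 / 2 ≤ Real.sin (π * (s + t)) := by
      have h8 : Real.sin (π * (s + t)) = Real.cos (π * (s + t) - π / 2) := by
        rw [Real.cos_sub_pi_div_two]
      rw [h8]
      have h9 : Real.cos (π / 3) ≤ Real.cos (π * (s + t) - π / 2) := by
        apply Real.cos_le_cos_of_nonneg_of_le_pi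
        · nlinarith
        · linarith
        · nlinarith
      rw [Real.cos_pi_div_three] at h9
      exact h9
    have h8 : 0 ≤ 2 * (t - s) := by linarith
    have h9 : 1 / 2 * (2 * (t - s)) ≤ Real.sin (π * (s + t)) * Real.sin (π * (t - s)) :=
      mul_le_mul h7 h6 h8 (by linarith)
    linarith
  have h6 : 0 < C - Real.cos (2 * π * t) := by linarith
  calc 2 / (C + 1) * (t - s) = 2 * (t - s) / (C + 1) := by ring
    _ ≤ (Real.cos (2 * π * s) - Real.cos (2 * π * t)) / (C - Real.cos (2 * π * t)) := by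
        apply div_le_div₀ _ hcos h6 (by linarith)
        have : 0 ≤ 2 * (t - s) := by linarith
        linarith
    _ ≤ gg C t - gg C s := by rw [h3, ← h5]; linarith

/-- the integral near `s` -/
theorem gg_int {C : ℝ} (hC : 1 < C) {s v : ℝ} (hs : 1 / 4 ≤ s) (hs' : s ≤ 3 / 8)
    (hv : 1 / 4 ≤ s + v) (hv' : s + v ≤ 3 / 8) :
    1 / (C + 1) * v ^ 2 ≤ ∫ t in s..(s + v), (gg C t - gg C s) := by
  have hlin : ∀ a b : ℝ, ∫ t in a..b, 2 / (C + 1) * (t - s) =
      1 / (C + 1) * ((b - s) ^ 2 - (a - s) ^ 2) := by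
    intro a b
    have hid : IntervalIntegrable (fun t : ℝ => t) volume a b := continuous_id.intervalIntegrable a b
    rw [intervalIntegral.integral_const_mul, intervalIntegral.integral_sub hid
      intervalIntegrable_const, integral_id, intervalIntegral.integral_const, smul_eq_mul]
    ring
  have hi1 : ∀ a b : ℝ, IntervalIntegrable (fun t => 2 / (C + 1) * (t - s)) volume a b :=
    fun a b => (by fun_prop : Continuous (fun t => 2 / (C + 1) * (t - s))).intervalIntegrable a b
  have hi2 : ∀ a b : ℝ, IntervalIntegrable (fun t => gg C t - gg C s) volume a b :=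
    fun a b => ((gg_continuous hC).sub continuous_const).intervalIntegrable a b
  rcases le_total 0 v with h | h
  · have h1 : ∫ t in s..(s + v), 2 / (C + 1) * (t - s) ≤ ∫ t in s..(s + v), (gg C t - gg C s) := by
      apply intervalIntegral.integral_mono_on (by linarith) (hi1 _ _) (hi2 _ _)
      intro t ht
      exact gg_mono hC hs ht.1 (by linarith [ht.2])
    rw [hlin] at h1
    refine le_trans (le_of_eq ?_) h1
    ring
  · rw [intervalIntegral.integral_symm]
    have h1 : ∫ t in (s + v)..s, (gg C t - gg C s) ≤ ∫ t in (s + v)..s, 2 / (C + 1) * (t - s) := by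
      apply intervalIntegral.integral_mono_on (by linarith) (hi2 _ _) (hi1 _ _)
      intro t ht
      have := gg_mono hC (by linarith [ht.1] : 1 / 4 ≤ t) ht.2 hs'
      nlinarith
    rw [hlin] at h1
    have e : 1 / (C + 1) * ((s - s) ^ 2 - (s + v - s) ^ 2) = -(1 / (C + 1) * v ^ 2) := by ring
    rw [e] at h1
    linarith

/-- reflection -/
theorem gg_refl (C t : ℝ) : gg C (1 - t) = gg C t := by
  unfold gg
  congr 3
  rw [mul_sub, mul_one, Real.cos_two_pi_sub]

theorem gg_int' {C : ℝ} (hC : 1 < C) {s u : ℝ} (hs : 1 / 4 ≤ s) (hs' : s ≤ 3 / 8)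
    (hu : 1 / 4 ≤ s - u) (hu' : s - u ≤ 3 / 8) :
    ∫ t in (1 - s)..(1 - s + u), (gg C t - gg C s) ≤ -(1 / (C + 1) * u ^ 2) := by
  have h1 := gg_int hC hs hs' (v := -u) (by linarith) (by linarith)
  have h2 : ∫ t in (1 - s)..(1 - s + u), (gg C t - gg C s) =
      ∫ t in (s - u)..s, (gg C t - gg C s) := by
    have h3 := intervalIntegral.integral_comp_sub_left (a := s - u) (b := s)
      (fun t => gg C t - gg C s) 1
    have e1 : (1 : ℝ) - (s - u) = 1 - s + u := by ring
    rw [e1] at h3
    rw [← h3]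
    apply intervalIntegral.integral_congr
    intro t _
    show gg C (1 - t) - gg C s = gg C t - gg C s
    rw [gg_refl]
  rw [h2, intervalIntegral.integral_symm]
  have e2 : s + -u = s - u := by ring
  rw [e2, neg_sq] at h1
  linarith

/-! ### The function `Lc` -/

theorem ls_int (a b : ℝ) : IntervalIntegrable (fun t => Real.log (2 * Real.sin (π * t))) volume a b := by
  have h : MeromorphicOn (fun t : ℝ => 2 * Real.sin (π * t)) (Set.uIcc a b) := by
    intro t _
    apply AnalyticAt.meromorphicAt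
    fun_prop
  exact h.intervalIntegrable_log

/-- the dependence of `Lc` on a small change -/
theorem Lc_le {δ w : ℝ} (h0 : 0 < δ) (h1 : δ ≤ 1 / 2) (h2 : 0 < δ + w) (h3 : δ + w ≤ 1 / 2) :
    Lc (δ + w) ≤ Lc δ - w * Real.log (2 * Real.sin (π * δ)) := by
  have hpi := Real.pi_pos
  have hmono : ∀ s t : ℝ, 0 < s → s ≤ t → t ≤ 1 / 2 →
      Real.log (2 * Real.sin (π * s)) ≤ Real.log (2 * Real.sin (π * t)) := by
    intro s t hs hst ht
    apply Real.log_le_log
    · have : 0 < Real.sin (π * s) := Real.sin_pos_of_pos_of_lt_pi (by positivity) (by nlinarith)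
      linarith
    · have : Real.sin (π * s) ≤ Real.sin (π * t) := by
        apply Real.sin_le_sin_of_le_of_le_pi_div_two
        · nlinarith
        · nlinarith
        · exact mul_le_mul_of_nonneg_left hst hpi.le
      linarith
  have e : Lc (δ + w) - Lc δ = -∫ t in δ..(δ + w), Real.log (2 * Real.sin (π * t)) := by
    unfold Lc
    have := intervalIntegral.integral_interval_sub_left (ls_int 0 (δ + w)) (ls_int 0 δ)
    linarith
  have key : w * Real.log (2 * Real.sin (π * δ)) ≤
      ∫ t in δ..(δ + w), Real.log (2 * Real.sin (π * t)) := by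
    have hc : ∀ a b : ℝ, ∫ t in a..b, Real.log (2 * Real.sin (π * δ)) =
        (b - a) * Real.log (2 * Real.sin (π * δ)) := by
      intro a b
      rw [intervalIntegral.integral_const, smul_eq_mul]
    have hci : ∀ a b : ℝ, IntervalIntegrable (fun _ : ℝ => Real.log (2 * Real.sin (π * δ)))
        volume a b := fun a b => intervalIntegrable_const
    rcases le_total 0 w with h | h
    · have h4 : ∫ t in δ..(δ + w), Real.log (2 * Real.sin (π * δ)) ≤
          ∫ t in δ..(δ + w), Real.log (2 * Real.sin (π * t)) := by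
        apply intervalIntegral.integral_mono_on (by linarith) (hci _ _) (ls_int _ _)
        intro t ht
        exact hmono _ _ h0 ht.1 (by linarith [ht.2])
      rw [hc] at h4
      refine le_trans (le_of_eq ?_) h4
      ring
    · rw [intervalIntegral.integral_symm]
      have h4 : ∫ t in (δ + w)..δ, Real.log (2 * Real.sin (π * t)) ≤
          ∫ t in (δ + w)..δ, Real.log (2 * Real.sin (π * δ)) := by
        apply intervalIntegral.integral_mono_on (by linarith) (ls_int _ _) (hci _ _)
        intro t ht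
        exact hmono _ _ (by linarith [ht.1]) ht.2 h1
      rw [hc] at h4
      have e2 : (δ - (δ + w)) * Real.log (2 * Real.sin (π * δ)) =
          -(w * Real.log (2 * Real.sin (π * δ))) := by ring
      rw [e2] at h4
      linarith
  linarith

/-- the splitting of the integral -/
theorem gg_split {C : ℝ} (hC : 1 < C) (β a b : ℝ) : ∫ t in b..a, gg C t =
    (∫ t in β..(1 - β), gg C t) + (∫ t in (1 - β)..a, (gg C t - gg C β)) -
      (∫ t in β..b, (gg C t - gg C β)) + (a - (1 - β) - (b - β)) * gg C β := by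
  have hi : ∀ p q : ℝ, IntervalIntegrable (gg C) volume p q :=
    fun p q => (gg_continuous hC).intervalIntegrable p q
  have h1 : ∀ p q : ℝ, ∫ t in p..q, (gg C t - gg C β) =
      (∫ t in p..q, gg C t) - (q - p) * gg C β := by
    intro p q
    rw [intervalIntegral.integral_sub (hi p q) intervalIntegrable_const,
      intervalIntegral.integral_const, smul_eq_mul]
  rw [h1, h1]
  have h2 := intervalIntegral.integral_add_adjacent_intervals (hi b β) (hi β (1 - β))
  have h3 := intervalIntegral.integral_add_adjacent_intervals (hi b (1 - β)) (hi (1 - β) a)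
  have h4 : ∫ t in b..β, gg C t = -∫ t in β..b, gg C t := intervalIntegral.integral_symm _ _
  rw [← h3, ← h2, h4]
  ring

/-- **the rate of a pair near the maximum** -/
theorem t_QUAD : S_QUAD := by
  intro hP n hn
  obtain ⟨-, -, hC1, -, hy, hch, hb1, hb2, -, -, hlog, -⟩ := hP n hn
  have hpi := Real.pi_pos
  have hy' : yn n ≠ 0 := hy.ne'
  unfold Es
  generalize bs n = β at *
  generalize yn n = y at *
  generalize Ch n = C at *
  have hc1 : 0 < 2 / (π * (C + 1)) ^ 2 := by positivity
  generalize hk : 2 / (π * (C + 1)) ^ 2 = k at hc1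
  refine ⟨min (β - 1 / 4) (1 / 24), min (1 / (2 * (C + 1))) (k / 8),
    lt_min (by linarith) (by norm_num), lt_min (by positivity) (by positivity),
    fun x a b hx ha hb => ?_⟩
  have hx1 : |x| ≤ π / 2 := by
    have h1 : |x| ≤ 1 / 24 := hx.trans (min_le_right _ _)
    have h2 := Real.pi_gt_three
    linarith
  have ha1 := abs_le.mp (ha.trans (min_le_left _ _))
  have ha2 := abs_le.mp (ha.trans (min_le_right _ _))
  have hb1' := abs_le.mp (hb.trans (min_le_left _ _))
  have hb2' := abs_le.mp (hb.trans (min_le_right _ _))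
  have hab : 1 / 4 ≤ a - b := by linarith [ha2.1, hb2'.2]
  have hlf0 : ∀ t, lf 0 y t = gg C t := by
    intro t
    rw [lf_zero hy', hch]
    rfl
  -- the dependence on `x`
  have h1 : ∫ t in b..a, lf x y t ≤ ∫ t in b..a, (gg C t - k * x ^ 2) := by
    apply intervalIntegral.integral_mono_on (by linarith)
      ((lf_continuous x hy').intervalIntegrable _ _)
      (((gg_continuous hC1).sub continuous_const).intervalIntegrable _ _)
    intro t ht
    have hcos : Real.cos (2 * π * t) ≤ 0 := by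
      apply Real.cos_nonpos_of_pi_div_two_le_of_le
      · nlinarith [ht.1, hb1'.1]
      · nlinarith [ht.2, ha1.2]
    have h2 := lf_le hy' hx1 hcos
    rw [hlf0, hch, hk] at h2
    exact h2
  have h2 : ∫ t in b..a, (gg C t - k * x ^ 2) = (∫ t in b..a, gg C t) - (a - b) * (k * x ^ 2) := by
    rw [intervalIntegral.integral_sub ((gg_continuous hC1).intervalIntegrable _ _)
      intervalIntegrable_const, intervalIntegral.integral_const, smul_eq_mul]
  -- the end points
  have h3 := gg_int hC1 (s := β) (v := b - β) hb1.le (by linarith) (by linarith [hb1'.1])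
    (by linarith [hb2'.2])
  have e3 : β + (b - β) = b := by ring
  rw [e3] at h3
  have h4 := gg_int' hC1 (s := β) (u := a - (1 - β)) hb1.le (by linarith) (by linarith [ha1.2])
    (by linarith [ha2.1])
  have e4 : 1 - β + (a - (1 - β)) = a := by ring
  rw [e4] at h4
  have h5 := gg_split hC1 β a b
  -- the function `Lc`
  have h6 := Lc_le (δ := 1 - β - β) (w := a - (1 - β) - (b - β)) (by linarith) (by linarith)
    (by linarith) (by linarith [ha1.2, hb1'.1])
  have e6 : 1 - β - β + (a - (1 - β) - (b - β)) = a - b := by ring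
  rw [e6] at h6
  have e7 : Real.sin (π * (1 - β - β)) = Real.sin (2 * π * β) := by
    have : π * (1 - β - β) = π - 2 * π * β := by ring
    rw [this, Real.sin_pi_sub]
  rw [e7] at h6
  have e8 : gg C β = 2 * Real.log (2 * Real.sin (2 * π * β)) := hlog
  have e9 : ∫ t in β..(1 - β), lf 0 y t = ∫ t in β..(1 - β), gg C t :=
    intervalIntegral.integral_congr fun t _ => hlf0 t
  unfold Ep
  rw [e9]
  have m1 : min (1 / (2 * (C + 1))) (k / 8) ≤ 1 / (2 * (C + 1)) := min_le_left _ _
  have m2 : min (1 / (2 * (C + 1))) (k / 8) ≤ k / 8 := min_le_right _ _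
  have q1 : min (1 / (2 * (C + 1))) (k / 8) * ((a - (1 - β)) ^ 2 + (b - β) ^ 2) ≤
      1 / (2 * (C + 1)) * ((a - (1 - β)) ^ 2 + (b - β) ^ 2) :=
    mul_le_mul_of_nonneg_right m1 (by positivity)
  have q2 : min (1 / (2 * (C + 1))) (k / 8) * x ^ 2 ≤ k / 8 * x ^ 2 :=
    mul_le_mul_of_nonneg_right m2 (sq_nonneg _)
  have q3 : 1 / 4 * (k * x ^ 2) ≤ (a - b) * (k * x ^ 2) :=
    mul_le_mul_of_nonneg_right hab (by positivity)
  have q4 : 1 / (2 * (C + 1)) * ((a - (1 - β)) ^ 2 + (b - β) ^ 2) =
      1 / 2 * (1 / (C + 1) * (a - (1 - β)) ^ 2) + 1 / 2 * (1 / (C + 1) * (b - β) ^ 2) := by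
    field_simp
  rw [h2, h5, e8] at h1
  rw [e8] at h3 h4
  have q5 : min (1 / (2 * (C + 1))) (k / 8) * (x ^ 2 + (a - (1 - β)) ^ 2 + (b - β) ^ 2) =
      min (1 / (2 * (C + 1))) (k / 8) * x ^ 2 +
      min (1 / (2 * (C + 1))) (k / 8) * ((a - (1 - β)) ^ 2 + (b - β) ^ 2) := by ring
  rw [q5]
  linarith

end Pool.Agent.Y721.TK
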